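import Pool.Agent.helper12.DD.Spec2

set_option autoImplicit false

/-! Row dw:SQB of problem MP_baa4d7_al. -/

open Pool.Agent.helper49.Blk

namespace Pool.Agent.DD

theorem SQB_mem {G : Type} [Group G] {C : List (Subgroup G)} {x : G} :
    x ∈ NC C ↔ ∀ P ∈ C, x ∈ Subgroup.normalizer (P : Set G) := by
  rw [NC, Subgroup.mem_iInf]
  exact forall_congr' fun Q => Subgroup.mem_iInf

/-- an element which normalises the members of the chain normalises `NC C` -/
theorem SQB_nc {G E : Type} [Group G] [Group E] (ι : G →* E) (hn : ι.range.Normal)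
    (C : List (Subgroup G)) (e : E)
    (h : ∀ P ∈ C, ∀ x y : G, ι y = e * ι x * e⁻¹ → (x ∈ P ↔ y ∈ P)) :
    ∀ x y : G, ι y = e * ι x * e⁻¹ → (x ∈ NC C ↔ y ∈ NC C) := by
  intro x y hxy
  rw [SQB_mem, SQB_mem]
  refine forall_congr' fun P => forall_congr' fun hP => ?_
  rw [Subgroup.mem_normalizer_iff, Subgroup.mem_normalizer_iff]
  have key : ∀ a b : G, ι b = e * ι a * e⁻¹ → ((a ∈ P ↔ x * a * x⁻¹ ∈ P) ↔ (b ∈ P ↔ y * b * y⁻¹ ∈ P)) := by
    intro a b hab
    have h1 := h P hP a b hab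
    have h2 := h P hP (x * a * x⁻¹) (y * b * y⁻¹) (by
      rw [map_mul, map_mul, map_inv, map_mul, map_mul, map_inv, hxy, hab]
      group)
    rw [h1, h2]
  constructor
  · intro hx b
    obtain ⟨a, ha⟩ := hn.conj_mem _ ⟨b, rfl⟩ e⁻¹
    exact (key a b (by rw [ha]; group)).1 (hx a)
  · intro hy a
    obtain ⟨b, hb⟩ := hn.conj_mem _ ⟨a, rfl⟩ e
    exact (key a b hb).2 (hy b)

/-- conjugation by `e` as an automorphism of `N` -/
theorem SQB_aut {G E : Type} [Group G] [Group E] (ι : G →* E) (hι : Function.Injective ι)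
    (hn : ι.range.Normal) (N : Subgroup G) (e : E)
    (h : ∀ x y : G, ι y = e * ι x * e⁻¹ → (x ∈ N ↔ y ∈ N)) :
    ∃ α : N ≃* N, ∀ x : N, ι (α x) = e * ι x * e⁻¹ := by
  have h1 : ∀ x : N, ∃ y : N, ι y = e * ι x * e⁻¹ := by
    intro x
    obtain ⟨y, hy⟩ := hn.conj_mem _ ⟨x.1, rfl⟩ e
    exact ⟨⟨y, (h x.1 y hy).1 x.2⟩, hy⟩
  choose f hf using h1
  have hmul : ∀ x y : N, f (x * y) = f x * f y := by
    intro x y
    refine Subtype.ext (hι ?_)
    rw [hf, Subgroup.coe_mul, Subgroup.coe_mul, map_mul, map_mul, hf, hf]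
    group
  let F : N →* N := MonoidHom.mk' f hmul
  have hF : Function.Bijective F := by
    constructor
    · intro x y hxy
      have h2 : ι (f x) = ι (f y) := by rw [show f x = f y from hxy]
      rw [hf, hf] at h2
      have h3 : ι (x : G) = ι (y : G) := mul_left_cancel (mul_right_cancel h2)
      exact Subtype.ext (hι h3)
    · intro y
      obtain ⟨x, hx⟩ := hn.conj_mem _ ⟨y.1, rfl⟩ e⁻¹
      have h2 : ι (y : G) = e * ι x * e⁻¹ := by
        rw [hx]
        group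
      refine ⟨⟨x, (h x y.1 h2).2 y.2⟩, Subtype.ext (hι ?_)⟩
      show ι (f _) = _
      rw [hf, h2]
  exact ⟨MulEquiv.ofBijective F hF, hf⟩

/-- subgroups between a subgroup of prime index and the group -/
theorem SQB_prime {B : Type} [Group B] [Finite B] (A T : Subgroup B) (q : ℕ) (hq : q.Prime)
    (hc : Nat.card B = q * Nat.card A) (h : A ≤ T) : T = A ∨ T = ⊤ := by
  obtain ⟨t, ht⟩ := Subgroup.card_dvd_of_le h
  have hT := Subgroup.card_subgroup_dvd_card T
  have hA : 0 < Nat.card A := Nat.card_pos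
  rw [hc, ht, mul_comm q] at hT
  have h1 : t ∣ q := Nat.dvd_of_mul_dvd_mul_left hA hT
  rcases (Nat.dvd_prime hq).1 h1 with h2 | h2
  · left
    refine (Subgroup.eq_of_le_of_card_ge h ?_).symm
    rw [ht, h2, mul_one]
  · right
    refine Subgroup.eq_top_of_card_eq _ ?_
    rw [ht, h2, hc, mul_comm]

theorem SQB (hSTS : STS_stmt) (hCLB : CLB_stmt) (hCHQ : CHQ_stmt) : SQB_stmt := by
  intro p q m hp hq hqp hcop K W E _ _ _ _ _ κ ω V₀ hT C hcard φ hφ ψ hψ hov hiv
  have hιi : Function.Injective (ω.comp κ) := hT.ωinj.comp hT.κinj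
  have hNC : (NC (cW κ C)).comap κ = NC C :=
    (hCHQ p q hp hq hqp K W κ hT.κinj hT.κnor hT.card).2.1 C
  obtain ⟨⟨S, hS⟩, V, hV, hVK⟩ := hSTS K E (ω.comp κ) hιi hT.ωκnor C _ hNC ψ
  have hji : Function.Injective (κ.subgroupComap (NC (cW κ C))) := fun x y hxy =>
    Subtype.ext (hT.κinj (congrArg Subtype.val hxy))
  have hmemj : ∀ b : NC (cW κ C), b ∈ (κ.subgroupComap (NC (cW κ C))).range ↔ (b : W) ∈ κ.range := by
    intro b
    constructor
    · rintro ⟨x, rfl⟩
      exact ⟨x, rfl⟩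
    · rintro ⟨x, hx⟩
      refine ⟨⟨x, ?_⟩, Subtype.ext hx⟩
      show κ x ∈ NC (cW κ C)
      rw [hx]
      exact b.2
  have hjn : (κ.subgroupComap (NC (cW κ C))).range.Normal := by
    constructor
    intro a ha b
    rw [hmemj] at ha ⊢
    exact hT.κnor.conj_mem _ ha b
  have hcB := hCLB _ _ (κ.subgroupComap (NC (cW κ C))) hji hjn q hq hcard ψ hψ hiv
  obtain ⟨hone, hcB2⟩ := hcB
  obtain ⟨_, _, _, hconj⟩ := hcB2 φ hφ hov
  -- members of the chain
  have hPmem : ∀ P ∈ C, P.map κ ∈ cW κ C := fun P hP => List.mem_map.2 ⟨P, hP, rfl⟩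
  have hNP : ∀ b ∈ NC (cW κ C), ∀ P ∈ C, ∀ x y : K, κ y = b * κ x * b⁻¹ → (x ∈ P ↔ y ∈ P) := by
    intro b hb P hP x y hxy
    have h1 := SQB_mem.1 hb (P.map κ) (hPmem P hP)
    rw [Subgroup.mem_normalizer_iff] at h1
    have h2 := h1 (κ x)
    rw [← hxy, Subgroup.mem_map_iff_mem hT.κinj, Subgroup.mem_map_iff_mem hT.κinj] at h2
    exact h2
  have hSN : ∀ s : W, ω s ∈ S → s ∈ NC (cW κ C) := by
    intro s hs
    have h1 := ((hS _).1 hs).1
    rw [SQB_mem]
    intro P' hP'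
    obtain ⟨P, hP, rfl⟩ := List.mem_map.1 hP'
    rw [Subgroup.mem_normalizer_iff]
    intro a
    constructor
    · rintro ⟨x, hx, rfl⟩
      obtain ⟨y, hy⟩ := hT.κnor.conj_mem _ ⟨x, rfl⟩ s
      refine ⟨y, (h1 P hP x y ?_).1 hx, hy⟩
      show ω (κ y) = ω s * ω (κ x) * (ω s)⁻¹
      rw [hy, map_mul, map_mul, map_inv]
    · rintro ⟨y, hy, hya⟩
      obtain ⟨x, hx⟩ := hT.κnor.conj_mem _ ⟨y, rfl⟩ s⁻¹
      have hx' : κ x = a := by
        rw [hx, hya]
        group
      refine ⟨x, (h1 P hP x y ?_).2 hy, hx'⟩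
      show ω (κ y) = ω s * ω (κ x) * (ω s)⁻¹
      rw [hya, hx', map_mul, map_mul, map_inv]
  -- the stabiliser in `N`
  have hTj : ∀ b : NC (cW κ C), ω b ∈ S → (b : W) ∈ κ.range := by
    have h1 : (κ.subgroupComap (NC (cW κ C))).range ≤ (S.comap ω).comap (NC (cW κ C)).subtype := by
      rintro _ ⟨x, rfl⟩
      show ω (κ x) ∈ S
      rw [hS]
      constructor
      · intro P hP a b hab
        have hab' : ω (κ b) = ω (κ x * κ a * (κ x)⁻¹) := by
          rw [map_mul, map_mul, map_inv]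
          exact hab
        exact hNP (κ x) x.2 P hP a b (hT.ωinj hab')
      · intro a b hab
        have hab' : b = x * a * x⁻¹ := by
          apply Subtype.ext
          apply hιi
          rw [hab, Subgroup.coe_mul, Subgroup.coe_mul, Subgroup.coe_inv, map_mul, map_mul, map_inv]
          rfl
        rw [hab']
        exact ((IRF _).2 ψ hψ).2 a x
    have h2 : Nat.card (κ.subgroupComap (NC (cW κ C))).range = Nat.card ((NC (cW κ C)).comap κ) :=
      Nat.card_congr (MonoidHom.ofInjective hji).toEquiv.symm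
    rcases SQB_prime _ _ q hq (by rw [h2]; exact hcard) h1 with h3 | h3
    · intro b hb
      rw [← hmemj, ← h3]
      exact hb
    · exfalso
      apply hiv
      intro b x y hxy
      have hb : b ∈ (S.comap ω).comap (NC (cW κ C)).subtype := by
        rw [h3]
        exact Subgroup.mem_top _
      refine ((hS _).1 (show ω b ∈ S from hb)).2 x y ?_
      have h4 : κ (y : K) = b * κ x * (b : W)⁻¹ := congrArg Subtype.val hxy
      show ω (κ y) = ω b * ω (κ x) * (ω b)⁻¹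
      rw [h4, map_mul, map_mul, map_inv]
  have hVi : ∀ w : W, ω w ∈ V → w ∈ κ.range := by
    intro w hw
    obtain ⟨g, hg⟩ := (hV _).1 hw
    have hs : ω (w * κ g) ∈ S := by
      rw [hS, map_mul]
      exact hg
    have h1 := hTj ⟨w * κ g, hSN _ hs⟩ hs
    have h2 := mul_mem h1 (inv_mem (show κ g ∈ κ.range from ⟨g, rfl⟩))
    rwa [mul_inv_cancel_right] at h2
  have hSV : ∀ e ∈ S, e ∈ V := by
    intro e he
    rw [hV]
    refine ⟨1, ?_⟩
    rw [map_one, mul_one, ← hS]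
    exact he
  have hα : ∀ e : E, (∀ P ∈ C, ∀ x y : K, (ω.comp κ) y = e * (ω.comp κ) x * e⁻¹ → (x ∈ P ↔ y ∈ P)) →
      ∃ α : (NC (cW κ C)).comap κ ≃* (NC (cW κ C)).comap κ, ∀ x,
        (ω.comp κ) (α x : K) = e * (ω.comp κ) (x : K) * e⁻¹ := by
    intro e he
    refine SQB_aut (ω.comp κ) hιi hT.ωκnor _ e fun x y hxy => ?_
    rw [hNC]
    exact SQB_nc (ω.comp κ) hT.ωκnor C e he x y hxy
  refine ⟨⟨fun hst => ?_, fun hst => ?_⟩, fun hst => ?_⟩
  · -- `V = V₀`
    have hVV : V = V₀ := by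
      refine hT.V0u V hVK hVi fun e => ?_
      obtain ⟨w, hw⟩ := (hst e).1 (Subgroup.mem_top e)
      obtain ⟨e', he'⟩ : ∃ e', e' = e * ω w := ⟨_, rfl⟩
      rw [← he'] at hw
      have h1 : ∀ P ∈ C, ∀ x y : K, (ω.comp κ) y = e' * (ω.comp κ) x * e'⁻¹ → (x ∈ P ↔ y ∈ P) := by
        intro P hP x y hxy
        have h2 := hw.1 (P.map κ) (hPmem P hP) (κ x) (κ y) hxy
        rwa [Subgroup.mem_map_iff_mem hT.κinj, Subgroup.mem_map_iff_mem hT.κinj] at h2
      obtain ⟨α, hα⟩ := hα e' h1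
      have hψ' : (fun x => ψ (α x)) ∈ Irr ((NC (cW κ C)).comap κ) := (TRI _ _ α ψ).1 hψ
      have hov' : Ovr (κ.subgroupComap (NC (cW κ C))) φ (fun x => ψ (α x)) := by
        unfold Ovr at hov ⊢
        have h2 : (∑ᶠ x : (NC (cW κ C)).comap κ, φ (κ.subgroupComap (NC (cW κ C)) x) * ψ (α x⁻¹)) =
            ∑ᶠ x : (NC (cW κ C)).comap κ, φ (κ.subgroupComap (NC (cW κ C)) x) * ψ x⁻¹ := by
          refine Eq.trans (finsum_congr fun x => ?_) (finsum_comp_equiv
            (f := fun x => φ (κ.subgroupComap (NC (cW κ C)) x) * ψ x⁻¹) α.toEquiv)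
          have h3 : φ (κ.subgroupComap (NC (cW κ C)) (α x)) = φ (κ.subgroupComap (NC (cW κ C)) x) :=
            hw.2 (κ.subgroupComap (NC (cW κ C)) x) (κ.subgroupComap (NC (cW κ C)) (α x)) (hα x)
          rw [← h3, map_inv]
          rfl
        rw [h2]
        exact hov
      obtain ⟨_, b, hb⟩ := hconj _ hψ' hov'
      have hS'' : e' * (ω b)⁻¹ ∈ S := by
        rw [hS]
        constructor
        · intro P hP x y hxy
          obtain ⟨z, hz⟩ := hT.κnor.conj_mem _ ⟨x, rfl⟩ (b : W)⁻¹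
          have h3 : κ x = b * κ z * (b : W)⁻¹ := by
            rw [hz]
            group
          rw [← hNP b b.2 P hP z x h3]
          refine h1 P hP z y ?_
          rw [hxy]
          show e' * (ω b)⁻¹ * ω (κ x) * (e' * (ω b)⁻¹)⁻¹ = e' * ω (κ z) * e'⁻¹
          rw [h3, map_mul, map_mul, map_inv]
          group
        · intro x y hxy
          obtain ⟨z, hz⟩ := hT.κnor.conj_mem _ ⟨x.1, rfl⟩ (b : W)⁻¹
          have h3 : κ (x : K) = b * κ z * (b : W)⁻¹ := by
            rw [hz]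
            group
          have hzN : κ z ∈ NC (cW κ C) := by
            rw [hz]
            exact mul_mem (mul_mem (inv_mem b.2) x.2) (inv_mem (inv_mem b.2))
          have h4 : y = α ⟨z, hzN⟩ := by
            apply Subtype.ext
            apply hιi
            rw [hα, hxy]
            show e' * (ω b)⁻¹ * ω (κ (x : K)) * (e' * (ω b)⁻¹)⁻¹ = e' * ω (κ z) * e'⁻¹
            rw [h3, map_mul, map_mul, map_inv]
            group
          rw [h4]
          exact hb ⟨z, hzN⟩ x (Subtype.ext h3)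
      refine ⟨e' * (ω b)⁻¹, hSV _ hS'', b * w⁻¹, ?_⟩
      rw [he', map_mul, map_inv]
      group
    rw [← hVV]
    exact hV
  · intro e
    refine ⟨fun _ => ?_, fun _ => Subgroup.mem_top e⟩
    obtain ⟨v, hv, w, rfl⟩ := hT.V0s e
    obtain ⟨g, hg⟩ := (hst v).1 hv
    refine ⟨w⁻¹ * κ g, ?_⟩
    have he : v * ω w * ω (w⁻¹ * κ g) = v * (ω.comp κ) g := by
      rw [map_mul, map_inv]
      show v * ω w * ((ω w)⁻¹ * ω (κ g)) = v * ω (κ g)
      group
    rw [he]
    obtain ⟨s, hs⟩ : ∃ s, s = v * (ω.comp κ) g := ⟨_, rfl⟩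
    rw [← hs] at hg ⊢
    have h1 : ∀ P ∈ cW κ C, ∀ x y : W, ω y = s * ω x * s⁻¹ → (x ∈ P ↔ y ∈ P) := by
      intro P' hP' x y hxy
      obtain ⟨P, hP, rfl⟩ := List.mem_map.1 hP'
      constructor
      · rintro ⟨x₀, hx₀, rfl⟩
        obtain ⟨y₀, hy₀⟩ := hT.ωκnor.conj_mem _ ⟨x₀, rfl⟩ s
        refine ⟨y₀, (hg.1 P hP x₀ y₀ hy₀).1 hx₀, hT.ωinj ?_⟩
        rw [hxy]
        exact hy₀
      · rintro ⟨y₀, hy₀, rfl⟩
        obtain ⟨x₀, hx₀⟩ := hT.ωκnor.conj_mem _ ⟨y₀, rfl⟩ s⁻¹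
        have h2 : (ω.comp κ) y₀ = s * (ω.comp κ) x₀ * s⁻¹ := by
          rw [hx₀]
          group
        refine ⟨x₀, (hg.1 P hP x₀ y₀ h2).2 hy₀, hT.ωinj ?_⟩
        have h3 : s * ω (κ x₀) * s⁻¹ = s * ω x * s⁻¹ := h2.symm.trans hxy
        exact mul_left_cancel (mul_right_cancel h3)
    refine ⟨h1, fun x y hxy => ?_⟩
    obtain ⟨β, hβ⟩ := SQB_aut ω hT.ωinj hT.ωnor (NC (cW κ C)) s
      (SQB_nc ω hT.ωnor (cW κ C) s h1)
    obtain ⟨α, hα⟩ := hα s hg.1
    have hφ' : (fun x => φ (β x)) ∈ Irr (NC (cW κ C)) := (TRI _ _ β φ).1 hφ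
    have hov' : Ovr (κ.subgroupComap (NC (cW κ C))) (fun x => φ (β x)) ψ := by
      unfold Ovr at hov ⊢
      have h2 : (∑ᶠ x : (NC (cW κ C)).comap κ, φ (β (κ.subgroupComap (NC (cW κ C)) x)) * ψ x⁻¹) =
          ∑ᶠ x : (NC (cW κ C)).comap κ, φ (κ.subgroupComap (NC (cW κ C)) x) * ψ x⁻¹ := by
        refine Eq.trans (finsum_congr fun x => ?_) (finsum_comp_equiv
          (f := fun x => φ (κ.subgroupComap (NC (cW κ C)) x) * ψ x⁻¹) α.toEquiv)
        have h3 : β (κ.subgroupComap (NC (cW κ C)) x) = κ.subgroupComap (NC (cW κ C)) (α x) := by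
          apply Subtype.ext
          apply hT.ωinj
          rw [hβ]
          exact (hα x).symm
        have h4 : ψ (α x⁻¹) = ψ x⁻¹ := hg.2 x⁻¹ (α x⁻¹) (hα x⁻¹)
        rw [h3, ← h4, map_inv]
        rfl
      rw [h2]
      exact hov
    obtain ⟨a, ha⟩ := Set.ncard_eq_one.1 hone
    have e1 : φ = a := by
      have : φ ∈ ({a} : Set _) := by
        rw [← ha]
        exact ⟨hφ, hov⟩
      exact this
    have e2 : (fun x => φ (β x)) = a := by
      have : (fun x => φ (β x)) ∈ ({a} : Set _) := by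
        rw [← ha]
        exact ⟨hφ', hov'⟩
      exact this
    have e3 : y = β x := by
      apply Subtype.ext
      apply hT.ωinj
      rw [hβ, hxy]
    rw [e3]
    exact congrFun (e2.trans e1.symm) x
  · -- `StabIs ψ ⊤` is impossible
    have h1 : Function.Surjective κ := by
      intro w
      refine hVi w ?_
      rw [hV]
      exact (hst _).1 (Subgroup.mem_top _)
    have h2 := Nat.card_le_card_of_surjective κ h1
    rw [hT.card] at h2
    have h3 : 0 < Nat.card K := Nat.card_pos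
    have h4 := hq.two_le
    nlinarith

end Pool.Agent.DD
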